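import Pool.Agent.V1194.LP.Pack

/-!
# Euler products of degree one: Taylor coefficients at real points
-/

set_option autoImplicit false

namespace Pool.Agent.V1194.LP

open Filter Topology Set
open Pool.Agent.V11288.LZ
open Pool.Agent.W187.UR (Lam)

section lim

theorem tendsto_sub_zpow {s₀ : ℂ} {k : ℤ} (hk : 0 < k) :
    Tendsto (fun s : ℂ => (s - s₀) ^ k) (𝓝[≠] s₀) (𝓝 0) := by
  obtain ⟨j, rfl⟩ := Int.eq_ofNat_of_zero_le hk.le
  have hj : j ≠ 0 := by
    rintro rfl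
    exact lt_irrefl _ hk
  have h1 : Continuous fun s : ℂ => (s - s₀) ^ j := by fun_prop
  have h2 := (h1.tendsto s₀).mono_left (nhdsWithin_le_nhds (s := {s₀}ᶜ))
  rw [sub_self, zero_pow hj] at h2
  simpa only [zpow_natCast] using h2

theorem tendsto_log_zpow {k : ℤ} (hk : k < 0) :
    Tendsto (fun X : ℝ => (Real.log X : ℂ) ^ k) atTop (𝓝 0) := by
  rw [tendsto_zero_iff_norm_tendsto_zero]
  have h1 : Tendsto (fun X : ℝ => Real.log X ^ k) atTop (𝓝 0) :=
    (tendsto_zpow_atTop_zero hk).comp Real.tendsto_log_atTop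
  refine h1.congr' ?_
  filter_upwards [eventually_gt_atTop 1] with X hX
  rw [norm_zpow, Complex.norm_real, Real.norm_eq_abs, abs_of_pos (Real.log_pos hX)]

/-- the case of the limit zero -/
theorem zero_iff {L : ℂ → ℂ} {T : ℝ → ℂ} {s₀ : ℂ} {m r : ℤ} {A B : ℂ} (hA : A ≠ 0) (hB : B ≠ 0)
    (h1 : Tendsto (fun s : ℂ => L s / (s - s₀) ^ m) (𝓝[≠] s₀) (𝓝 A))
    (h2 : Tendsto (fun X : ℝ => (Real.log X : ℂ) ^ m * T X) atTop (𝓝 B)) :
    Tendsto (fun s : ℂ => L s / (s - s₀) ^ r) (𝓝[≠] s₀) (𝓝 0) ↔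
      Tendsto (fun X : ℝ => (Real.log X : ℂ) ^ r * T X) atTop (𝓝 0) := by
  have key1 : Tendsto (fun s : ℂ => L s / (s - s₀) ^ r) (𝓝[≠] s₀) (𝓝 0) ↔ r < m := by
    have e1 : ∀ k l : ℤ, (fun s : ℂ => L s / (s - s₀) ^ k * (s - s₀) ^ (k - l)) =ᶠ[𝓝[≠] s₀]
        fun s : ℂ => L s / (s - s₀) ^ l := by
      intro k l
      filter_upwards [self_mem_nhdsWithin] with s hs
      have hs' : s - s₀ ≠ 0 := sub_ne_zero.2 hs
      rw [zpow_sub₀ hs']
      have := zpow_ne_zero k hs'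
      have := zpow_ne_zero l hs'
      field_simp
    constructor
    · intro h
      by_contra hle
      have hle' : m ≤ r := not_lt.1 hle
      rcases hle'.eq_or_lt with h3 | h3
      · rw [h3] at h1
        exact hA (tendsto_nhds_unique h1 h)
      · have h4 := (h.mul (tendsto_sub_zpow (s₀ := s₀) (k := r - m) (by omega))).congr' (e1 r m)
        rw [mul_zero] at h4
        exact hA (tendsto_nhds_unique h1 h4)
    · intro h
      have h4 := (h1.mul (tendsto_sub_zpow (s₀ := s₀) (k := m - r) (by omega))).congr' (e1 m r)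
      rwa [mul_zero] at h4
  have key2 : Tendsto (fun X : ℝ => (Real.log X : ℂ) ^ r * T X) atTop (𝓝 0) ↔ r < m := by
    have e1 : ∀ k l : ℤ, (fun X : ℝ => (Real.log X : ℂ) ^ k * T X * (Real.log X : ℂ) ^ (l - k))
        =ᶠ[atTop] fun X : ℝ => (Real.log X : ℂ) ^ l * T X := by
      intro k l
      filter_upwards [eventually_gt_atTop 1] with X hX
      have hX' : (Real.log X : ℂ) ≠ 0 := by exact_mod_cast (Real.log_pos hX).ne'
      rw [zpow_sub₀ hX']
      have := zpow_ne_zero k hX'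
      field_simp
    constructor
    · intro h
      by_contra hle
      have hle' : m ≤ r := not_lt.1 hle
      rcases hle'.eq_or_lt with h3 | h3
      · rw [h3] at h2
        exact hB (tendsto_nhds_unique h2 h)
      · have h4 := (h.mul (tendsto_log_zpow (k := m - r) (by omega))).congr' (e1 r m)
        rw [mul_zero] at h4
        exact hB (tendsto_nhds_unique h2 h4)
    · intro h
      have h4 := (h2.mul (tendsto_log_zpow (k := r - m) (by omega))).congr' (e1 m r)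
      rwa [mul_zero] at h4
  rw [key1, key2]

end lim

variable {P : Type} {n : ℕ} {e θ : ℝ} {q : P → ℝ} {A : P → Matrix (Fin n) (Fin n) ℂ}

/-- **Taylor coefficients at a real point, zero or not.** -/
theorem coeff_iff [Countable P] (E : Eul e θ q A) {L : ℂ → ℂ} (s₀ : ℝ)
    (hL : ∀ x ∈ Icc s₀ (e + θ), MeromorphicAt L (x : ℂ))
    (hp : ∀ s : ℂ, e + θ < s.re → L s = ∏' v, ((1 - (q v : ℂ) ^ (-s) • A v).det)⁻¹) {γ : ℝ}
    (hγ : Real.pi / 2 < γ) (r : ℤ) (B : ℂ) :
    Tendsto (fun s : ℂ => L s / (s - s₀) ^ r) (𝓝[≠] (s₀ : ℂ)) (𝓝 B) ↔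
      Tendsto (fun X : ℝ => (Real.log X : ℂ) ^ r * Complex.exp (tot q A s₀ γ X)) atTop
        (𝓝 (Complex.exp (r * Lam γ) * B)) := by
  obtain ⟨-, ⟨m, c, -, h3, -⟩, -, -, -, h5, -⟩ := package E (L := L) s₀ hL hp hγ
  by_cases hB : B = 0
  · subst hB
    rw [mul_zero]
    exact zero_iff (Complex.exp_ne_zero c)
      (mul_ne_zero (Complex.exp_ne_zero _) (Complex.exp_ne_zero c)) h3
      ((h5 m _ (Complex.exp_ne_zero c)).1 h3)
  · exact h5 r B hB

/-- one-dimensional systems -/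
theorem eul_scal {c : P → ℂ} (he : 1 ≤ e) (h2 : ∀ v, 2 ≤ q v)
    (hs : ∀ x : ℝ, e < x → Summable fun v => q v ^ (-x)) (hc : ∀ v, ‖c v‖ ≤ 1) :
    Eul e 0 q (fun v => (c v) • (1 : Matrix (Fin 1) (Fin 1) ℂ)) := by
  refine ⟨he, h2, hs, fun v z hz => ?_⟩
  have h1 : ((c v) • (1 : Matrix (Fin 1) (Fin 1) ℂ)).charpoly = Polynomial.X - Polynomial.C (c v) := by
    rw [Matrix.charpoly, Matrix.det_fin_one, Matrix.charmatrix_apply_eq, Matrix.smul_apply,
      Matrix.one_apply_eq, smul_eq_mul, mul_one]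
  rw [h1, Polynomial.roots_X_sub_C, Multiset.mem_singleton] at hz
  rw [hz, Real.rpow_zero]
  exact hc v

end Pool.Agent.V1194.LP
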