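import Pool.Agent.V1194.LP.Pack

/-!
# Dirichlet series with real coefficients: residues and weighted sums at the edge of convergence
-/

set_option autoImplicit false

namespace Pool.Agent.V1194.LP

open Filter Topology Set
open Pool.Agent.V11288.LZ
open Pool.Agent.W187.UR (Lam)

variable {ι : Type} {lam a : ι → ℝ} {E : ℂ → ℂ} {s₀ : ℝ}

/-- the data: `E = exp ∑ a_i e^{-s lam_i}` for `Re s > s₀`, meromorphic at `s₀` -/
structure Edge (lam a : ι → ℝ) (E : ℂ → ℂ) (s₀ : ℝ) : Prop where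
  nonneg : ∀ i, 0 ≤ lam i
  sum : ∀ x : ℝ, s₀ < x → Summable fun i => |a i| * Real.exp (-(x * lam i))
  eq : ∀ s : ℂ, s₀ < s.re → E s = Complex.exp (∑' i, (a i : ℂ) * Complex.exp (-(s * lam i)))
  mero : MeromorphicAt E (s₀ : ℂ)

/-- the series -/
noncomputable def ser (lam a : ι → ℝ) (s : ℂ) : ℂ := ∑' i, (a i : ℂ) * Complex.exp (-(s * lam i))

theorem Edge.sum' (D : Edge lam a E s₀) (x : ℝ) (hx : s₀ < x) :
    Summable fun i => ‖(a i : ℂ)‖ * Real.exp (-(x * lam i)) := by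
  refine (D.sum x hx).congr fun i => ?_
  rw [Complex.norm_real, Real.norm_eq_abs]

theorem Edge.dir (D : Edge lam a E s₀) : Dir lam (fun i => (a i : ℂ)) E s₀ (s₀ + 1) := by
  refine ⟨by linarith, D.nonneg, fun x hx => D.sum' x (by linarith), fun x hx => ?_,
    fun s hs => D.eq s (by linarith)⟩
  rcases hx.1.eq_or_lt with h | h
  · rw [← h]
    exact D.mero
  · have h2 := (series_analytic (c := fun i => (a i : ℂ)) D.nonneg (fun y hy => D.sum' y hy)
      (s := (x : ℂ)) (by simpa using h)).cexp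
    have hopen : IsOpen {z : ℂ | s₀ < z.re} := isOpen_lt continuous_const Complex.continuous_re
    refine (h2.congr ?_).meromorphicAt
    filter_upwards [hopen.mem_nhds (show s₀ < ((x : ℂ)).re by simpa using h)] with z hz
    exact (D.eq z hz).symm

/-- the real term -/
noncomputable def rd (lam a : ι → ℝ) (s₀ γ X : ℝ) (i : ι) : ℝ :=
  a i * Real.exp (-(s₀ * lam i)) * Real.cos (γ * (lam i / Real.log X)) /
    Real.Gamma (1 + lam i / Real.log X)

theorem rd_eq (γ X : ℝ) (i : ι) :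
    ((a i : ℂ) * Complex.exp (-(s₀ * lam i : ℝ)) *
      (Complex.exp ((γ * (lam i / Real.log X) : ℝ) * Complex.I) *
        (Pool.Agent.W189.ML.om (lam i / Real.log X) : ℂ))).re = rd lam a s₀ γ X i := by
  unfold rd Pool.Agent.W189.ML.om
  have h1 : (a i : ℂ) * Complex.exp (-(s₀ * lam i : ℝ)) *
      (Complex.exp ((γ * (lam i / Real.log X) : ℝ) * Complex.I) *
        (((Real.Gamma (1 + lam i / Real.log X))⁻¹ : ℝ) : ℂ)) =
      ((a i * Real.exp (-(s₀ * lam i)) * (Real.Gamma (1 + lam i / Real.log X))⁻¹ : ℝ) : ℂ) *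
        Complex.exp ((γ * (lam i / Real.log X) : ℝ) * Complex.I) := by
    push_cast
    ring
  rw [h1, Complex.re_ofReal_mul, Complex.exp_ofReal_mul_I_re]
  ring

/-- **The order at the edge from real weighted sums.** -/
theorem Edge.law [Countable ι] (D : Edge lam a E s₀) {γ : ℝ} (hγ : Real.pi / 2 < γ) :
    (∀ X : ℝ, 1 < X → Summable fun i => |rd lam a s₀ γ X i|) ∧
    ∃ (m : ℤ) (B : ℂ), B ≠ 0 ∧ meromorphicOrderAt E (s₀ : ℂ) = m ∧
      Tendsto (fun s : ℂ => E s / (s - s₀) ^ m) (𝓝[≠] (s₀ : ℂ)) (𝓝 B) ∧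
      (fun X : ℝ => (∑' i, rd lam a s₀ γ X i) -
        (Real.log ‖B‖ - m * (Real.log (Real.log X) - (Lam γ).re))) =O[atTop]
        (fun X : ℝ => 1 / Real.log X) ∧
      (∀ r : ℤ, m = r ↔
        ∃ C : ℝ, ∀ᶠ X : ℝ in atTop, |(∑' i, rd lam a s₀ γ X i) + r * Real.log (Real.log X)| ≤ C) ∧
      (∀ r : ℤ, r ≤ m ↔
        ∃ C : ℝ, ∀ᶠ X : ℝ in atTop, (∑' i, rd lam a s₀ γ X i) + r * Real.log (Real.log X) ≤ C) ∧
      (∀ r : ℤ, m ≤ r ↔
        ∃ C : ℝ, ∀ᶠ X : ℝ in atTop, C ≤ (∑' i, rd lam a s₀ γ X i) + r * Real.log (Real.log X)) := by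
  have D' := D.dir
  obtain ⟨m, c, h4, h5, h6⟩ := D'.law hγ
  set W : ℝ → ℂ := fun X => wmean lam (fun i => (a i : ℂ)) s₀ γ (Real.log X) with hW
  have h3 : ∀ X : ℝ, 1 < X → Summable fun i => ‖(a i : ℂ) * Complex.exp (-(s₀ * lam i : ℝ)) *
      (Complex.exp ((γ * (lam i / Real.log X) : ℝ) * Complex.I) *
        (Pool.Agent.W189.ML.om (lam i / Real.log X) : ℂ))‖ := fun X hX =>
    D'.wsummable γ (Real.log_pos hX)
  have h7 : ∀ X : ℝ, 1 < X → (W X).re = ∑' i, rd lam a s₀ γ X i := by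
    intro X hX
    rw [hW]
    unfold wmean
    rw [Complex.re_tsum (summable_norm_iff.1 (h3 X hX))]
    exact tsum_congr fun i => rd_eq γ X i
  have hn : Real.log ‖Complex.exp c‖ = c.re := by
    rw [Complex.norm_exp, Real.log_exp]
  have h8 : (fun X : ℝ => W X + m * (Real.log (Real.log X) - Lam γ) - c) =O[atTop]
      (fun X : ℝ => 1 / Real.log X) := h6.comp_tendsto Real.tendsto_log_atTop
  have h9 : (fun X : ℝ => (((∑' i, rd lam a s₀ γ X i : ℝ) : ℂ)) +
      m * (Real.log (Real.log X) - ((Lam γ).re : ℂ)) - (c.re : ℂ)) =O[atTop]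
      (fun X : ℝ => 1 / Real.log X) := by
    refine Asymptotics.IsBigO.trans ?_ h8
    refine Asymptotics.IsBigO.of_bound 1 ?_
    filter_upwards [eventually_gt_atTop 1] with X hX
    rw [one_mul]
    have e1 : (((∑' i, rd lam a s₀ γ X i : ℝ) : ℂ)) +
        m * (Real.log (Real.log X) - ((Lam γ).re : ℂ)) - (c.re : ℂ) =
        ((((W X + m * (Real.log (Real.log X) - Lam γ) - c).re : ℝ)) : ℂ) := by
      rw [Complex.sub_re, Complex.add_re, h7 X hX]
      have e2 : ((m : ℂ) * ((Real.log (Real.log X) : ℂ) - Lam γ)).re =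
          m * (Real.log (Real.log X) - (Lam γ).re) := by
        rw [← Complex.ofReal_intCast, Complex.re_ofReal_mul, Complex.sub_re, Complex.ofReal_re]
      rw [e2]
      push_cast
      ring
    rw [e1, Complex.norm_real, Real.norm_eq_abs]
    exact Complex.abs_re_le_norm _
  refine ⟨fun X hX => ?_, m, Complex.exp c, Complex.exp_ne_zero c, h4, h5, ?_, fun r => ?_,
    fun r => ?_, fun r => ?_⟩
  · refine Summable.of_nonneg_of_le (fun i => abs_nonneg _) (fun i => ?_) (h3 X hX)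
    rw [← rd_eq]
    exact Complex.abs_re_le_norm _
  · rw [hn]
    refine Asymptotics.IsBigO.trans ?_ h9
    refine Asymptotics.IsBigO.of_bound 1 (Eventually.of_forall fun X => ?_)
    rw [one_mul]
    have e1 : (((∑' i, rd lam a s₀ γ X i : ℝ) : ℂ)) +
        m * (Real.log (Real.log X) - ((Lam γ).re : ℂ)) - (c.re : ℂ) =
        ((((∑' i, rd lam a s₀ γ X i) - (c.re - m * (Real.log (Real.log X) - (Lam γ).re)) : ℝ)) : ℂ) := by
      push_cast
      ring
    rw [e1, Complex.norm_real]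
  · rw [order_iff h9 r]
    have e1 : ∀ X : ℝ, ‖(((∑' i, rd lam a s₀ γ X i : ℝ) : ℂ)) + r * Real.log (Real.log X)‖ =
        |(∑' i, rd lam a s₀ γ X i) + r * Real.log (Real.log X)| := by
      intro X
      rw [← Real.norm_eq_abs, ← Complex.norm_real]
      push_cast
      rfl
    simp only [e1]
  · rw [le_iff h9 r]
    simp only [Complex.ofReal_re]
  · rw [ge_iff h9 r]
    simp only [Complex.ofReal_re]

/-- the derivative of the series -/
theorem Edge.hasDeriv (D : Edge lam a E s₀) {s : ℂ} (hs : s₀ < s.re) :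
    deriv (ser lam a) s = -∑' i, (a i : ℂ) * lam i * Complex.exp (-(s * lam i)) ∧
      DifferentiableAt ℂ (ser lam a) s := by
  obtain ⟨y, hy1, hy2⟩ := exists_between hs
  have hopen : IsOpen {z : ℂ | y < z.re} := isOpen_lt continuous_const Complex.continuous_re
  have hle : ∀ (i : ι) (w : ℂ), w ∈ {z : ℂ | y < z.re} →
      ‖(a i : ℂ) * Complex.exp (-(w * lam i))‖ ≤ |a i| * Real.exp (-(y * lam i)) := by
    intro i w hw
    rw [norm_mul, Complex.norm_exp, Complex.norm_real, Real.norm_eq_abs]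
    refine mul_le_mul_of_nonneg_left ?_ (abs_nonneg _)
    apply Real.exp_le_exp.2
    have : (-(w * lam i)).re = -(w.re * lam i) := by simp
    rw [this]
    have hw' : y < w.re := hw
    nlinarith [D.nonneg i]
  have hd : ∀ i : ι, DifferentiableOn ℂ (fun w : ℂ => (a i : ℂ) * Complex.exp (-(w * lam i)))
      {z : ℂ | y < z.re} := fun i => Differentiable.differentiableOn (by fun_prop)
  refine ⟨?_, ?_⟩
  · have h1 := Complex.hasSum_deriv_of_summable_norm (D.sum y hy1) hd hopen hle (z := s) hy2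
    have h2 : deriv (ser lam a) s =
        ∑' i, deriv (fun w : ℂ => (a i : ℂ) * Complex.exp (-(w * lam i))) s := h1.tsum_eq.symm
    rw [h2, ← tsum_neg]
    refine tsum_congr fun i => ?_
    have h3 : HasDerivAt (fun w : ℂ => (a i : ℂ) * Complex.exp (-(w * lam i)))
        ((a i : ℂ) * (Complex.exp (-(s * lam i)) * (-(1 * (lam i : ℂ))))) s :=
      ((((hasDerivAt_id s).mul_const (lam i : ℂ)).neg).cexp).const_mul (a i : ℂ)
    rw [h3.deriv]
    ring
  · exact (Complex.differentiableOn_tsum_of_summable_norm (D.sum y hy1) hd hopen hle).differentiableAt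
      (hopen.mem_nhds hy2)

/-- **The residue of the logarithmic derivative at the edge.** -/
theorem Edge.residue (D : Edge lam a E s₀) {m : ℤ} (hm : meromorphicOrderAt E (s₀ : ℂ) = m) :
    ∃ G : ℂ → ℂ, MeromorphicAt G (s₀ : ℂ) ∧
      Tendsto (fun s : ℂ => (s - s₀) * G s) (𝓝[≠] (s₀ : ℂ)) (𝓝 (-(m : ℂ))) ∧
      ∃ r : ℝ, 0 < r ∧ ∀ s : ℂ, s₀ < s.re → ‖s - s₀‖ < r →
        G s = ∑' i, (a i : ℂ) * lam i * Complex.exp (-(s * lam i)) := by
  obtain ⟨g, hg, hg0, hE⟩ := (meromorphicOrderAt_eq_int_iff D.mero).1 hm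
  have hopen : IsOpen {z : ℂ | s₀ < z.re} := isOpen_lt continuous_const Complex.continuous_re
  have hsub : 𝓝[{s : ℂ | s₀ < s.re}] (s₀ : ℂ) ≤ 𝓝[≠] (s₀ : ℂ) := by
    refine nhdsWithin_mono _ fun s hs h => ?_
    rw [mem_singleton_iff.1 h] at hs
    have hs' : s₀ < ((s₀ : ℂ)).re := hs
    rw [Complex.ofReal_re] at hs'
    exact lt_irrefl _ hs'
  refine ⟨fun s => -((m : ℂ) / (s - s₀) + deriv g s / g s), ?_, ?_, ?_⟩
  · have h1 : MeromorphicAt (fun s : ℂ => s - s₀) (s₀ : ℂ) :=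
      (analyticAt_id.sub analyticAt_const).meromorphicAt
    have h2 : MeromorphicAt (fun s : ℂ => (m : ℂ) / (s - s₀)) (s₀ : ℂ) :=
      (MeromorphicAt.const (m : ℂ) (s₀ : ℂ)).fun_div h1
    have h3 : MeromorphicAt (fun s : ℂ => deriv g s / g s) (s₀ : ℂ) :=
      hg.deriv.meromorphicAt.fun_div hg.meromorphicAt
    exact (h2.fun_add h3).fun_neg
  · have h1 : Tendsto (fun s : ℂ => -((m : ℂ) + (s - s₀) * (deriv g s / g s))) (𝓝 (s₀ : ℂ))
        (𝓝 (-((m : ℂ) + ((s₀ : ℂ) - s₀) * (deriv g s₀ / g s₀)))) := by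
      have h2 := hg.deriv.continuousAt.tendsto
      have h3 := hg.continuousAt.tendsto
      exact (tendsto_const_nhds.add ((tendsto_id.sub tendsto_const_nhds).mul (h2.div h3 hg0))).neg
    rw [sub_self, zero_mul, add_zero] at h1
    refine (h1.mono_left nhdsWithin_le_nhds).congr' ?_
    filter_upwards [self_mem_nhdsWithin] with s hs
    have hne : s - s₀ ≠ 0 := sub_ne_zero.2 hs
    field_simp
  · have hder : deriv E =ᶠ[𝓝[≠] (s₀ : ℂ)] deriv fun z => (z - s₀) ^ m • g z :=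
      Filter.EventuallyEq.nhdsNE_deriv hE
    have hgne : ∀ᶠ z in 𝓝[≠] (s₀ : ℂ), g z ≠ 0 :=
      nhdsWithin_le_nhds (hg.continuousAt.eventually_ne hg0)
    have hgan : ∀ᶠ z in 𝓝[≠] (s₀ : ℂ), AnalyticAt ℂ g z :=
      nhdsWithin_le_nhds hg.eventually_analyticAt
    have key : ∀ᶠ s in 𝓝[{s : ℂ | s₀ < s.re}] (s₀ : ℂ),
        -((m : ℂ) / (s - s₀) + deriv g s / g s) =
          ∑' i, (a i : ℂ) * lam i * Complex.exp (-(s * lam i)) := by
      filter_upwards [hsub hE, hsub hder, hsub hgne, hsub hgan, self_mem_nhdsWithin] with s h1 h2 h3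
        h4 h5
      have hs : s₀ < s.re := h5
      have hne : s - s₀ ≠ 0 := by
        intro h
        have h6 : s = s₀ := sub_eq_zero.1 h
        rw [h6, Complex.ofReal_re] at hs
        exact lt_irrefl _ hs
      obtain ⟨h6, h7⟩ := D.hasDeriv hs
      -- the logarithmic derivative of `E`
      have h8 : deriv E s = E s * deriv (ser lam a) s := by
        have e1 : E =ᶠ[𝓝 s] fun z => Complex.exp (ser lam a z) := by
          filter_upwards [hopen.mem_nhds hs] with z hz
          exact D.eq z hz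
        rw [e1.deriv_eq, e1.eq_of_nhds, h7.hasDerivAt.cexp.deriv]
      have h9 : deriv E s = (m * (s - s₀) ^ (m - 1)) * g s + (s - s₀) ^ m * deriv g s := by
        rw [h2]
        have e0 : HasDerivAt (fun z : ℂ => z - (s₀ : ℂ)) 1 s := (hasDerivAt_id s).sub_const _
        have e1 : HasDerivAt (fun z : ℂ => (z - s₀) ^ m) ((m : ℂ) * (s - s₀) ^ (m - 1) * 1) s :=
          HasDerivAt.comp (h := fun z : ℂ => z - (s₀ : ℂ)) (h₂ := fun w : ℂ => w ^ m) s
            (hasDerivAt_zpow m _ (Or.inl hne)) e0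
        rw [mul_one] at e1
        have e2 : HasDerivAt (fun z : ℂ => (z - s₀) ^ m * g z)
            ((m * (s - s₀) ^ (m - 1)) * g s + (s - s₀) ^ m * deriv g s) s :=
          e1.mul h4.differentiableAt.hasDerivAt
        have e3 : (fun z : ℂ => (z - s₀) ^ m • g z) = fun z => (z - s₀) ^ m * g z := by
          funext z
          rw [smul_eq_mul]
        rw [e3, e2.deriv]
      rw [h1, smul_eq_mul] at h8
      have hz := zpow_ne_zero m hne
      have h10 : (∑' i, (a i : ℂ) * lam i * Complex.exp (-(s * lam i))) = -deriv (ser lam a) s := by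
        rw [h6, neg_neg]
      rw [h10]
      have h11 : deriv (ser lam a) s =
          ((m * (s - s₀) ^ (m - 1)) * g s + (s - s₀) ^ m * deriv g s) / ((s - s₀) ^ m * g s) := by
        rw [eq_div_iff (mul_ne_zero hz h3), ← h9, h8]
        ring
      rw [h11, zpow_sub_one₀ hne]
      field_simp
    obtain ⟨r, hr, h12⟩ := Metric.mem_nhdsWithin_iff.1 key
    refine ⟨r, hr, fun s hs hsr => ?_⟩
    exact h12 ⟨by rw [Metric.mem_ball, dist_eq_norm]; exact hsr, hs⟩

end Pool.Agent.V1194.LP
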