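import Pool.Agent.V11288.LZ.Fin

/-!
# Orders and leading terms of Euler products from weighted sums over primes: criteria for the order
-/

set_option autoImplicit false

namespace Pool.Agent.V1194.LP

open Filter Topology Set
open Pool.Agent.V11288.LZ
open Pool.Agent.W187.UR (Lam)

theorem loglog_top : Tendsto (fun X : ℝ => Real.log (Real.log X)) atTop atTop :=
  Real.tendsto_log_atTop.comp Real.tendsto_log_atTop

/-- the shape of the law -/
theorem split {W : ℝ → ℂ} {m : ℤ} {c l : ℂ}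
    (h : (fun X : ℝ => W X + m * (Real.log (Real.log X) - l) - c) =O[atTop]
      (fun X : ℝ => 1 / Real.log X)) (r : ℤ) :
    ∃ (f : ℝ → ℂ), (∀ᶠ X : ℝ in atTop, ‖f X‖ ≤ ‖c + m * l‖ + 1) ∧
      ∀ X : ℝ, W X + r * Real.log (Real.log X) = f X + ((r - m : ℤ) : ℂ) * Real.log (Real.log X) := by
  refine ⟨fun X => (W X + m * (Real.log (Real.log X) - l) - c) + (c + m * l), ?_, fun X => ?_⟩
  · have h1 : Tendsto (fun X : ℝ => W X + m * (Real.log (Real.log X) - l) - c) atTop (𝓝 0) := by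
      refine h.trans_tendsto ?_
      exact tendsto_const_nhds.div_atTop Real.tendsto_log_atTop
    have h2 := h1.norm
    rw [norm_zero] at h2
    filter_upwards [h2.eventually_le_const (show (0 : ℝ) < 1 by norm_num)] with X hX
    refine (norm_add_le _ _).trans ?_
    linarith
  · push_cast
    ring

/-- the order is detected by boundedness -/
theorem order_iff {W : ℝ → ℂ} {m : ℤ} {c l : ℂ}
    (h : (fun X : ℝ => W X + m * (Real.log (Real.log X) - l) - c) =O[atTop]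
      (fun X : ℝ => 1 / Real.log X)) (r : ℤ) :
    m = r ↔ ∃ C : ℝ, ∀ᶠ X : ℝ in atTop, ‖W X + r * Real.log (Real.log X)‖ ≤ C := by
  obtain ⟨f, h1, h2⟩ := split h r
  constructor
  · intro e
    refine ⟨‖c + m * l‖ + 1, ?_⟩
    filter_upwards [h1] with X hX
    rw [h2, e, sub_self, Int.cast_zero, zero_mul, add_zero]
    rw [e] at hX
    exact hX
  · rintro ⟨C, hC⟩
    by_contra hne
    have hpos : (1 : ℝ) ≤ |((r - m : ℤ) : ℝ)| := by
      have h3 : 1 ≤ |r - m| := Int.one_le_abs (sub_ne_zero.2 fun e => hne e.symm)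
      rw [← Int.cast_abs]
      exact_mod_cast h3
    obtain ⟨X, hX1, hX2, hX3⟩ := (hC.and (h1.and
      (loglog_top.eventually_ge_atTop (|C| + ‖c + m * l‖ + 2)))).exists
    have h3 : ((r - m : ℤ) : ℂ) * Real.log (Real.log X) =
        (W X + r * Real.log (Real.log X)) - f X := by
      rw [h2]
      ring
    have h4 := congrArg norm h3
    have h0 : 0 ≤ Real.log (Real.log X) := by
      have := abs_nonneg C
      have := norm_nonneg (c + m * l)
      linarith
    rw [norm_mul, Complex.norm_real, Real.norm_eq_abs, abs_of_nonneg h0, Complex.norm_intCast] at h4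
    have h5 := norm_sub_le (W X + r * Real.log (Real.log X)) (f X)
    have h6 : Real.log (Real.log X) ≤ |((r - m : ℤ) : ℝ)| * Real.log (Real.log X) :=
      le_mul_of_one_le_left h0 hpos
    have h7 := le_abs_self C
    linarith

/-- lower bounds of the order -/
theorem le_iff {W : ℝ → ℂ} {m : ℤ} {c l : ℂ}
    (h : (fun X : ℝ => W X + m * (Real.log (Real.log X) - l) - c) =O[atTop]
      (fun X : ℝ => 1 / Real.log X)) (r : ℤ) :
    r ≤ m ↔ ∃ C : ℝ, ∀ᶠ X : ℝ in atTop, (W X).re + r * Real.log (Real.log X) ≤ C := by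
  obtain ⟨f, h1, h2⟩ := split h r
  have h3 : ∀ X : ℝ, (W X).re + r * Real.log (Real.log X) =
      (f X).re + ((r - m : ℤ) : ℝ) * Real.log (Real.log X) := by
    intro X
    have h4 := congrArg Complex.re (h2 X)
    rw [Complex.add_re, Complex.add_re] at h4
    have e1 : ((r : ℂ) * (Real.log (Real.log X) : ℂ)).re = r * Real.log (Real.log X) := by
      rw [← Complex.ofReal_intCast, ← Complex.ofReal_mul, Complex.ofReal_re]
    have e2 : (((r - m : ℤ) : ℂ) * (Real.log (Real.log X) : ℂ)).re =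
        ((r - m : ℤ) : ℝ) * Real.log (Real.log X) := by
      rw [← Complex.ofReal_intCast, ← Complex.ofReal_mul, Complex.ofReal_re]
    rw [e1, e2] at h4
    exact h4
  constructor
  · intro e
    refine ⟨‖c + m * l‖ + 1, ?_⟩
    filter_upwards [h1, loglog_top.eventually_ge_atTop 0] with X hX h0
    rw [h3]
    have h4 : ((r - m : ℤ) : ℝ) * Real.log (Real.log X) ≤ 0 := by
      refine mul_nonpos_of_nonpos_of_nonneg ?_ h0
      exact_mod_cast sub_nonpos.2 e
    have h5 := Complex.re_le_norm (f X)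
    linarith
  · rintro ⟨C, hC⟩
    by_contra hne
    have hpos : (1 : ℝ) ≤ ((r - m : ℤ) : ℝ) := by
      have : 1 ≤ r - m := by omega
      exact_mod_cast this
    obtain ⟨X, hX1, hX2, hX3⟩ := (hC.and (h1.and
      (loglog_top.eventually_ge_atTop (|C| + ‖c + m * l‖ + 2)))).exists
    rw [h3] at hX1
    have h0 : 0 ≤ Real.log (Real.log X) := by
      have := abs_nonneg C
      have := norm_nonneg (c + m * l)
      linarith
    have h6 : Real.log (Real.log X) ≤ ((r - m : ℤ) : ℝ) * Real.log (Real.log X) :=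
      le_mul_of_one_le_left h0 hpos
    have h7 := le_abs_self C
    have h8 : -‖f X‖ ≤ (f X).re := by
      have := Complex.abs_re_le_norm (f X)
      exact (abs_le.1 this).1
    linarith

/-- upper bounds of the order -/
theorem ge_iff {W : ℝ → ℂ} {m : ℤ} {c l : ℂ}
    (h : (fun X : ℝ => W X + m * (Real.log (Real.log X) - l) - c) =O[atTop]
      (fun X : ℝ => 1 / Real.log X)) (r : ℤ) :
    m ≤ r ↔ ∃ C : ℝ, ∀ᶠ X : ℝ in atTop, C ≤ (W X).re + r * Real.log (Real.log X) := by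
  have h1 : (fun X : ℝ => (fun X => -W X) X + ((-m : ℤ) : ℂ) * (Real.log (Real.log X) - l) - -c)
      =O[atTop] (fun X : ℝ => 1 / Real.log X) := by
    refine h.neg_left.congr_left fun X => ?_
    push_cast
    ring
  have h2 := le_iff h1 (-r)
  rw [neg_le_neg_iff] at h2
  rw [h2]
  constructor
  · rintro ⟨C, hC⟩
    refine ⟨-C, ?_⟩
    filter_upwards [hC] with X hX
    rw [Complex.neg_re] at hX
    push_cast at hX
    linarith
  · rintro ⟨C, hC⟩
    refine ⟨-C, ?_⟩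
    filter_upwards [hC] with X hX
    rw [Complex.neg_re]
    push_cast
    linarith

variable {P : Type} {n : ℕ} {e θ : ℝ} {q : P → ℝ} {A : P → Matrix (Fin n) (Fin n) ℂ}

/-- **Orders and leading coefficients of Euler products at every real point.** -/
theorem package [Countable P] (E : Eul e θ q A) {L : ℂ → ℂ} (s₀ : ℝ)
    (hL : ∀ x ∈ Icc s₀ (e + θ), MeromorphicAt L (x : ℂ))
    (hp : ∀ s : ℂ, e + θ < s.re → L s = ∏' v, ((1 - (q v : ℂ) ^ (-s) • A v).det)⁻¹) {γ : ℝ}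
    (hγ : Real.pi / 2 < γ) :
    (∀ X : ℝ, 1 < X → Summable fun i => ‖tm q A s₀ γ X i‖) ∧
    (∃ (m : ℤ) (c : ℂ), meromorphicOrderAt L (s₀ : ℂ) = m ∧
      Tendsto (fun s : ℂ => L s / (s - s₀) ^ m) (𝓝[≠] (s₀ : ℂ)) (𝓝 (Complex.exp c)) ∧
      (fun X : ℝ => tot q A s₀ γ X - (c - m * (Real.log (Real.log X) - Lam γ))) =O[atTop]
        (fun X : ℝ => 1 / Real.log X)) ∧
    (∀ r : ℤ, meromorphicOrderAt L (s₀ : ℂ) = r ↔
      ∃ C : ℝ, ∀ᶠ X : ℝ in atTop, ‖tot q A s₀ γ X + r * Real.log (Real.log X)‖ ≤ C) ∧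
    (∀ r : ℤ, (r : WithTop ℤ) ≤ meromorphicOrderAt L (s₀ : ℂ) ↔
      ∃ C : ℝ, ∀ᶠ X : ℝ in atTop, (tot q A s₀ γ X).re + r * Real.log (Real.log X) ≤ C) ∧
    (∀ r : ℤ, meromorphicOrderAt L (s₀ : ℂ) ≤ r ↔
      ∃ C : ℝ, ∀ᶠ X : ℝ in atTop, C ≤ (tot q A s₀ γ X).re + r * Real.log (Real.log X)) ∧
    (∀ (r : ℤ) (B : ℂ), B ≠ 0 →
      (Tendsto (fun s : ℂ => L s / (s - s₀) ^ r) (𝓝[≠] (s₀ : ℂ)) (𝓝 B) ↔
        Tendsto (fun X : ℝ => (Real.log X : ℂ) ^ r * Complex.exp (tot q A s₀ γ X)) atTop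
          (𝓝 (Complex.exp (r * Lam γ) * B)))) ∧
    ∀ B : ℂ, Tendsto L (𝓝[≠] (s₀ : ℂ)) (𝓝 B) ↔
      Tendsto (fun X : ℝ => Complex.exp (tot q A s₀ γ X)) atTop (𝓝 B) := by
  obtain ⟨h1, ⟨m, c, h2, h3, h4⟩, h5, h6⟩ := E.final' (L := L) s₀ hL hp hγ
  refine ⟨h1, ⟨m, c, h2, h3, ?_⟩, fun r => ?_, fun r => ?_, fun r => ?_, h5, h6⟩
  · refine h4.congr_left fun X => ?_
    ring
  · rw [← order_iff h4 r, h2]
    exact_mod_cast Iff.rfl
  · rw [← le_iff h4 r, h2]
    exact_mod_cast Iff.rfl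
  · rw [← ge_iff h4 r, h2]
    exact_mod_cast Iff.rfl

end Pool.Agent.V1194.LP
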