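import Pool.Agent.V1194.LP.Zeta

/-!
# Euler products with real coefficients: orders and leading terms at real points
-/

set_option autoImplicit false

namespace Pool.Agent.V1194.LP

open Filter Topology Set
open Pool.Agent.V11288.LZ
open Pool.Agent.W187.UR (Lam)

variable {P : Type} {n : ℕ} {e θ : ℝ} {q : P → ℝ} {A : P → Matrix (Fin n) (Fin n) ℂ} {a : P → ℕ → ℝ}

/-- the real term at `(v, k)`, `k = i.2 + 1` -/
noncomputable def ra (q : P → ℝ) (a : P → ℕ → ℝ) (s₀ γ X : ℝ) (i : P × ℕ) : ℝ :=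
  a i.1 (i.2 + 1) * Real.cos (γ * (((i.2 + 1 : ℕ) : ℝ) * Real.log (q i.1) / Real.log X)) /
    (((i.2 + 1 : ℕ) : ℝ) * (q i.1 ^ s₀) ^ (i.2 + 1) *
      Real.Gamma (1 + ((i.2 + 1 : ℕ) : ℝ) * Real.log (q i.1) / Real.log X))

theorem tm_re' (htr : ∀ v k, (A v ^ k).trace = (a v k : ℂ)) (s₀ γ X : ℝ) (i : P × ℕ) :
    (tm q A s₀ γ X i).re = ra q a s₀ γ X i := by
  unfold tm wt ra
  rw [htr]
  set u : ℝ := ((i.2 + 1 : ℕ) : ℝ) * Real.log (q i.1) / Real.log X with hu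
  have h1 : (a i.1 (i.2 + 1) : ℂ) / (((i.2 + 1 : ℕ) : ℂ) * ((q i.1 ^ s₀ : ℝ) : ℂ) ^ (i.2 + 1)) *
      (Complex.exp ((γ * u : ℝ) * Complex.I) / (Real.Gamma (1 + u) : ℂ)) =
      ((a i.1 (i.2 + 1) *
        (((i.2 + 1 : ℕ) : ℝ) * (q i.1 ^ s₀) ^ (i.2 + 1) * Real.Gamma (1 + u))⁻¹ : ℝ) : ℂ) *
        Complex.exp ((γ * u : ℝ) * Complex.I) := by
    push_cast
    rw [mul_inv, mul_inv]
    simp only [div_eq_mul_inv, mul_inv]
    ring
  rw [h1, Complex.re_ofReal_mul, Complex.exp_ofReal_mul_I_re]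
  rw [div_eq_mul_inv]
  ring

/-- **The order and the leading coefficient at a real point.** -/
theorem real_package [Countable P] (E : Eul e θ q A) (htr : ∀ v k, (A v ^ k).trace = (a v k : ℂ))
    {L : ℂ → ℂ} (s₀ : ℝ)
    (hL : ∀ x ∈ Icc s₀ (e + θ), MeromorphicAt L (x : ℂ))
    (hp : ∀ s : ℂ, e + θ < s.re → L s = ∏' v, ((1 - (q v : ℂ) ^ (-s) • A v).det)⁻¹) {γ : ℝ}
    (hγ : Real.pi / 2 < γ) :
    (∀ X : ℝ, 1 < X → Summable fun i => |ra q a s₀ γ X i|) ∧
    ∃ (m : ℤ) (B : ℂ), B ≠ 0 ∧ meromorphicOrderAt L (s₀ : ℂ) = m ∧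
      Tendsto (fun s : ℂ => L s / (s - s₀) ^ m) (𝓝[≠] (s₀ : ℂ)) (𝓝 B) ∧
      (fun X : ℝ => (∑' i, ra q a s₀ γ X i) -
        (Real.log ‖B‖ - m * (Real.log (Real.log X) - (Lam γ).re))) =O[atTop]
        (fun X : ℝ => 1 / Real.log X) ∧
      (∀ r : ℤ, m = r ↔
        ∃ C : ℝ, ∀ᶠ X : ℝ in atTop, |(∑' i, ra q a s₀ γ X i) + r * Real.log (Real.log X)| ≤ C) ∧
      (∀ r : ℤ, r ≤ m ↔
        ∃ C : ℝ, ∀ᶠ X : ℝ in atTop, (∑' i, ra q a s₀ γ X i) + r * Real.log (Real.log X) ≤ C) ∧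
      (∀ r : ℤ, m ≤ r ↔
        ∃ C : ℝ, ∀ᶠ X : ℝ in atTop, C ≤ (∑' i, ra q a s₀ γ X i) + r * Real.log (Real.log X)) := by
  obtain ⟨h3, ⟨m, c, h4, h5, h6⟩, -, -, -, -⟩ := package E (L := L) s₀ hL hp hγ
  have h7 : ∀ X : ℝ, 1 < X → (tot q A s₀ γ X).re = ∑' i, ra q a s₀ γ X i := by
    intro X hX
    unfold tot
    rw [tsum_re (h3 X hX)]
    exact tsum_congr fun i => tm_re' htr s₀ γ X i
  have hn : Real.log ‖Complex.exp c‖ = c.re := by
    rw [Complex.norm_exp, Real.log_exp]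
  have h8 : (fun X : ℝ => tot q A s₀ γ X + m * (Real.log (Real.log X) - Lam γ) - c) =O[atTop]
      (fun X : ℝ => 1 / Real.log X) := by
    refine h6.congr_left fun X => ?_
    ring
  have h9 : (fun X : ℝ => (((∑' i, ra q a s₀ γ X i : ℝ) : ℂ)) +
      m * (Real.log (Real.log X) - ((Lam γ).re : ℂ)) - (c.re : ℂ)) =O[atTop]
      (fun X : ℝ => 1 / Real.log X) := by
    refine Asymptotics.IsBigO.trans ?_ h8
    refine Asymptotics.IsBigO.of_bound 1 ?_
    filter_upwards [eventually_gt_atTop 1] with X hX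
    rw [one_mul]
    have e1 : (((∑' i, ra q a s₀ γ X i : ℝ) : ℂ)) +
        m * (Real.log (Real.log X) - ((Lam γ).re : ℂ)) - (c.re : ℂ) =
        ((((tot q A s₀ γ X + m * (Real.log (Real.log X) - Lam γ) - c).re : ℝ)) : ℂ) := by
      rw [Complex.sub_re, Complex.add_re, h7 X hX]
      have e2 : ((m : ℂ) * ((Real.log (Real.log X) : ℂ) - Lam γ)).re =
          m * (Real.log (Real.log X) - (Lam γ).re) := by
        rw [← Complex.ofReal_intCast, Complex.re_ofReal_mul, Complex.sub_re, Complex.ofReal_re]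
      rw [e2]
      push_cast
      ring
    rw [e1, Complex.norm_real, Real.norm_eq_abs]
    exact Complex.abs_re_le_norm _
  refine ⟨fun X hX => ?_, m, Complex.exp c, Complex.exp_ne_zero c, h4, h5, ?_, fun r => ?_,
    fun r => ?_, fun r => ?_⟩
  · refine Summable.of_nonneg_of_le (fun i => abs_nonneg _) (fun i => ?_) (h3 X hX)
    rw [← tm_re' htr]
    exact Complex.abs_re_le_norm _
  · rw [hn]
    refine Asymptotics.IsBigO.trans ?_ h9
    refine Asymptotics.IsBigO.of_bound 1 (Eventually.of_forall fun X => ?_)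
    rw [one_mul]
    have e1 : (((∑' i, ra q a s₀ γ X i : ℝ) : ℂ)) +
        m * (Real.log (Real.log X) - ((Lam γ).re : ℂ)) - (c.re : ℂ) =
        ((((∑' i, ra q a s₀ γ X i) - (c.re - m * (Real.log (Real.log X) - (Lam γ).re)) : ℝ)) : ℂ) := by
      push_cast
      ring
    rw [e1, Complex.norm_real]
  · rw [order_iff h9 r]
    have e1 : ∀ X : ℝ, ‖(((∑' i, ra q a s₀ γ X i : ℝ) : ℂ)) + r * Real.log (Real.log X)‖ =
        |(∑' i, ra q a s₀ γ X i) + r * Real.log (Real.log X)| := by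
      intro X
      rw [← Real.norm_eq_abs, ← Complex.norm_real]
      push_cast
      rfl
    simp only [e1]
  · rw [le_iff h9 r]
    simp only [Complex.ofReal_re]
  · rw [ge_iff h9 r]
    simp only [Complex.ofReal_re]

/-- the roots of `X² - tX + q` for `t² ≤ 4q` -/
theorem quad_root {t q : ℝ} (h : t ^ 2 ≤ 4 * q) {z : ℂ} (hz : z ^ 2 - t * z + q = 0) :
    ‖z‖ ^ 2 = q := by
  have h1 := congrArg Complex.re hz
  have h2 := congrArg Complex.im hz
  rw [← Complex.normSq_eq_norm_sq, Complex.normSq_apply]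
  simp only [sq, Complex.add_re, Complex.sub_re, Complex.mul_re, Complex.ofReal_re,
    Complex.ofReal_im, zero_mul, sub_zero, Complex.zero_re, Complex.add_im, Complex.sub_im,
    Complex.mul_im, add_zero, Complex.zero_im] at h1 h2
  have h3 : z.im * (2 * z.re - t) = 0 := by linarith
  rcases mul_eq_zero.1 h3 with h4 | h4
  · rw [h4] at h1 ⊢
    have h5 : (z.re - t / 2) ^ 2 ≤ 0 := by nlinarith
    have h6 : z.re - t / 2 = 0 := by
      have h7 := sq_nonneg (z.re - t / 2)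
      exact pow_eq_zero_iff (two_ne_zero) |>.1 (le_antisymm h5 h7)
    nlinarith
  · linear_combination (-1 : ℝ) * h1 + z.re * h4

/-- the companion matrix of `X² - tX + q` -/
def cm (t q : ℝ) : Matrix (Fin 2) (Fin 2) ℝ := !![t, -q; 1, 0]

/-- its multiple `c • cm` as a complex matrix -/
noncomputable def cc (c t q : ℝ) : Matrix (Fin 2) (Fin 2) ℂ := !![(c * t : ℂ), -(c * q : ℂ); c, 0]

theorem cc_eq (c t q : ℝ) : cc c t q = (c : ℂ) • (cm t q).map Complex.ofReal := by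
  ext i j
  fin_cases i <;> fin_cases j <;> simp [cc, cm]

theorem cc_trace (c t q : ℝ) (k : ℕ) :
    (cc c t q ^ k).trace = ((c ^ k * ((cm t q) ^ k).trace : ℝ) : ℂ) := by
  rw [cc_eq, smul_pow, Matrix.trace_smul, smul_eq_mul]
  have h1 : ((cm t q).map Complex.ofReal) ^ k = ((cm t q) ^ k).map Complex.ofReal := by
    have h2 := map_pow (Complex.ofRealHom.mapMatrix (m := Fin 2)) (cm t q) k
    exact h2.symm
  rw [h1]
  have h3 : (((cm t q) ^ k).map Complex.ofReal).trace = ((((cm t q) ^ k).trace : ℝ) : ℂ) := by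
    simp [Matrix.trace]
  rw [h3]
  push_cast
  ring

theorem cc_root {c t q : ℝ} (hc : 0 ≤ c) (h : t ^ 2 ≤ 4 * q) {z : ℂ}
    (hz : z ∈ (cc c t q).charpoly.roots) : ‖z‖ = c * √q := by
  have h1 := Polynomial.isRoot_of_mem_roots hz
  rw [Polynomial.IsRoot.def, Matrix.charpoly_fin_two] at h1
  simp only [cc, Matrix.trace_fin_two_of, Matrix.det_fin_two_of, add_zero, mul_zero, zero_sub,
    Polynomial.eval_add, Polynomial.eval_sub, Polynomial.eval_pow, Polynomial.eval_X,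
    Polynomial.eval_mul, Polynomial.eval_C] at h1
  have h2 : ‖z‖ ^ 2 = c ^ 2 * q := by
    refine quad_root (t := c * t) (q := c ^ 2 * q) ?_ ?_
    · nlinarith [sq_nonneg c]
    · push_cast
      linear_combination h1
  have h4 : 0 ≤ q := by nlinarith [sq_nonneg t]
  have h3 : ‖z‖ ^ 2 = (c * √q) ^ 2 := by
    rw [h2, mul_pow, Real.sq_sqrt h4]
  exact (pow_left_inj₀ (norm_nonneg _) (by positivity) two_ne_zero).1 h3

theorem cc_det (c t q : ℝ) (x : ℂ) :
    (1 - x • cc c t q).det = 1 - c * t * x + c ^ 2 * q * x ^ 2 := by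
  rw [Matrix.det_fin_two]
  simp [cc]
  ring

end Pool.Agent.V1194.LP
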