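import Pool.Agent.V1194.LP.Pack

/-!
# Zeta functions: orders and leading terms at real points from real weighted sums
-/

set_option autoImplicit false

namespace Pool.Agent.V1194.LP

open Filter Topology Set
open Pool.Agent.V11288.LZ
open Pool.Agent.W187.UR (Lam)

variable {P : Type} {e : ℝ} {q : P → ℝ}

/-- the real term at `(v, k)`, `k = i.2 + 1` -/
noncomputable def rt (q : P → ℝ) (s₀ γ X : ℝ) (i : P × ℕ) : ℝ :=
  Real.cos (γ * (((i.2 + 1 : ℕ) : ℝ) * Real.log (q i.1) / Real.log X)) /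
    (((i.2 + 1 : ℕ) : ℝ) * (q i.1 ^ s₀) ^ (i.2 + 1) *
      Real.Gamma (1 + ((i.2 + 1 : ℕ) : ℝ) * Real.log (q i.1) / Real.log X))

theorem eul_one (he : 1 ≤ e) (h2 : ∀ v, 2 ≤ q v)
    (hs : ∀ x : ℝ, e < x → Summable fun v => q v ^ (-x)) :
    Eul e 0 q (fun _ => (1 : Matrix (Fin 1) (Fin 1) ℂ)) := by
  refine ⟨he, h2, hs, fun v z hz => ?_⟩
  rw [Matrix.charpoly_one, Fintype.card_fin, pow_one, ← Polynomial.C_1,
    Polynomial.roots_X_sub_C, Multiset.mem_singleton] at hz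
  rw [hz, norm_one, Real.rpow_zero]

theorem tm_re (s₀ γ X : ℝ) (i : P × ℕ) :
    (tm q (fun _ => (1 : Matrix (Fin 1) (Fin 1) ℂ)) s₀ γ X i).re = rt q s₀ γ X i := by
  unfold tm wt rt
  rw [one_pow, Matrix.trace_one, Fintype.card_fin, Nat.cast_one]
  set u : ℝ := ((i.2 + 1 : ℕ) : ℝ) * Real.log (q i.1) / Real.log X with hu
  have h1 : (1 : ℂ) / (((i.2 + 1 : ℕ) : ℂ) * ((q i.1 ^ s₀ : ℝ) : ℂ) ^ (i.2 + 1)) *
      (Complex.exp ((γ * u : ℝ) * Complex.I) / (Real.Gamma (1 + u) : ℂ)) =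
      (((((i.2 + 1 : ℕ) : ℝ) * (q i.1 ^ s₀) ^ (i.2 + 1) * Real.Gamma (1 + u))⁻¹ : ℝ) : ℂ) *
        Complex.exp ((γ * u : ℝ) * Complex.I) := by
    push_cast
    rw [mul_inv, mul_inv]
    simp only [div_eq_mul_inv, one_mul, mul_inv]
    ring
  rw [h1, Complex.re_ofReal_mul, Complex.exp_ofReal_mul_I_re]
  rw [mul_comm, div_eq_mul_inv]

theorem tsum_re {ι : Type} {f : ι → ℂ} (h : Summable fun i => ‖f i‖) :
    (∑' i, f i).re = ∑' i, (f i).re :=
  Complex.re_tsum (summable_norm_iff.1 h)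

/-- **The order and the leading coefficient at a real point.** -/
theorem zeta_package (he : 1 ≤ e) (h2 : ∀ v, 2 ≤ q v)
    (hs : ∀ x : ℝ, e < x → Summable fun v => q v ^ (-x)) {L : ℂ → ℂ} (s₀ : ℝ)
    (hL : ∀ x ∈ Icc s₀ e, MeromorphicAt L (x : ℂ))
    (hp : ∀ s : ℂ, e < s.re → L s = ∏' v, (1 - (q v : ℂ) ^ (-s))⁻¹) {γ : ℝ}
    (hγ : Real.pi / 2 < γ) :
    (∀ X : ℝ, 1 < X → Summable fun i => |rt q s₀ γ X i|) ∧
    ∃ (m : ℤ) (A : ℂ), A ≠ 0 ∧ meromorphicOrderAt L (s₀ : ℂ) = m ∧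
      Tendsto (fun s : ℂ => L s / (s - s₀) ^ m) (𝓝[≠] (s₀ : ℂ)) (𝓝 A) ∧
      (fun X : ℝ => (∑' i, rt q s₀ γ X i) -
        (Real.log ‖A‖ - m * (Real.log (Real.log X) - (Lam γ).re))) =O[atTop]
        (fun X : ℝ => 1 / Real.log X) ∧
      (∀ r : ℤ, m = r ↔
        ∃ C : ℝ, ∀ᶠ X : ℝ in atTop, |(∑' i, rt q s₀ γ X i) + r * Real.log (Real.log X)| ≤ C) ∧
      (∀ r : ℤ, r ≤ m ↔
        ∃ C : ℝ, ∀ᶠ X : ℝ in atTop, (∑' i, rt q s₀ γ X i) + r * Real.log (Real.log X) ≤ C) ∧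
      (∀ r : ℤ, m ≤ r ↔
        ∃ C : ℝ, ∀ᶠ X : ℝ in atTop, C ≤ (∑' i, rt q s₀ γ X i) + r * Real.log (Real.log X)) := by
  have E := eul_one he h2 hs
  have : Countable P := by
    have h3 := hs (e + 1) (by linarith)
    have h4 := h3.countable_support
    have h5 : Function.support (fun v => q v ^ (-(e + 1))) = univ := by
      refine eq_univ_of_forall fun v => ?_
      rw [Function.mem_support]
      exact (Real.rpow_pos_of_pos (by linarith [h2 v]) _).ne'
    rw [h5] at h4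
    exact countable_univ_iff.1 h4
  obtain ⟨h3, ⟨m, c, h4, h5, h6⟩, -, -, -, -⟩ := package E (L := L) s₀
    (fun x hx => hL x ⟨hx.1, by linarith [hx.2]⟩) (fun s hs => by
      rw [hp s (by linarith)]
      refine tprod_congr fun v => ?_
      rw [Matrix.det_fin_one, Matrix.sub_apply, Matrix.one_apply_eq, Matrix.smul_apply,
        Matrix.one_apply_eq, smul_eq_mul, mul_one]) hγ
  have h7 : ∀ X : ℝ, 1 < X →
      (tot q (fun _ => (1 : Matrix (Fin 1) (Fin 1) ℂ)) s₀ γ X).re = ∑' i, rt q s₀ γ X i := by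
    intro X hX
    unfold tot
    rw [tsum_re (h3 X hX)]
    exact tsum_congr fun i => tm_re s₀ γ X i
  have hn : Real.log ‖Complex.exp c‖ = c.re := by
    rw [Complex.norm_exp, Real.log_exp]
  have h8 : (fun X : ℝ => tot q (fun _ => (1 : Matrix (Fin 1) (Fin 1) ℂ)) s₀ γ X +
      m * (Real.log (Real.log X) - Lam γ) - c) =O[atTop] (fun X : ℝ => 1 / Real.log X) := by
    refine h6.congr_left fun X => ?_
    ring
  -- the law in real terms
  have h9 : (fun X : ℝ => (((∑' i, rt q s₀ γ X i : ℝ) : ℂ)) +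
      m * (Real.log (Real.log X) - ((Lam γ).re : ℂ)) - (c.re : ℂ)) =O[atTop]
      (fun X : ℝ => 1 / Real.log X) := by
    refine Asymptotics.IsBigO.trans ?_ h8
    refine Asymptotics.IsBigO.of_bound 1 ?_
    filter_upwards [eventually_gt_atTop 1] with X hX
    rw [one_mul]
    have e1 : (((∑' i, rt q s₀ γ X i : ℝ) : ℂ)) +
        m * (Real.log (Real.log X) - ((Lam γ).re : ℂ)) - (c.re : ℂ) =
        ((((tot q (fun _ => (1 : Matrix (Fin 1) (Fin 1) ℂ)) s₀ γ X +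
          m * (Real.log (Real.log X) - Lam γ) - c).re : ℝ)) : ℂ) := by
      rw [Complex.sub_re, Complex.add_re, h7 X hX]
      have e2 : ((m : ℂ) * ((Real.log (Real.log X) : ℂ) - Lam γ)).re =
          m * (Real.log (Real.log X) - (Lam γ).re) := by
        rw [← Complex.ofReal_intCast, Complex.re_ofReal_mul, Complex.sub_re, Complex.ofReal_re]
      rw [e2]
      push_cast
      ring
    rw [e1, Complex.norm_real, Real.norm_eq_abs]
    exact Complex.abs_re_le_norm _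
  refine ⟨fun X hX => ?_, m, Complex.exp c, Complex.exp_ne_zero c, h4, h5, ?_, fun r => ?_,
    fun r => ?_, fun r => ?_⟩
  · refine Summable.of_nonneg_of_le (fun i => abs_nonneg _) (fun i => ?_) (h3 X hX)
    rw [← tm_re]
    exact Complex.abs_re_le_norm _
  · rw [hn]
    refine Asymptotics.IsBigO.trans ?_ h9
    refine Asymptotics.IsBigO.of_bound 1 (Eventually.of_forall fun X => ?_)
    rw [one_mul]
    have e1 : (((∑' i, rt q s₀ γ X i : ℝ) : ℂ)) +
        m * (Real.log (Real.log X) - ((Lam γ).re : ℂ)) - (c.re : ℂ) =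
        ((((∑' i, rt q s₀ γ X i) - (c.re - m * (Real.log (Real.log X) - (Lam γ).re)) : ℝ)) : ℂ) := by
      push_cast
      ring
    rw [e1, Complex.norm_real]
  · rw [order_iff h9 r]
    have e1 : ∀ X : ℝ, ‖(((∑' i, rt q s₀ γ X i : ℝ) : ℂ)) + r * Real.log (Real.log X)‖ =
        |(∑' i, rt q s₀ γ X i) + r * Real.log (Real.log X)| := by
      intro X
      rw [← Real.norm_eq_abs, ← Complex.norm_real]
      push_cast
      rfl
    simp only [e1]
  · rw [le_iff h9 r]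
    simp only [Complex.ofReal_re]
  · rw [ge_iff h9 r]
    simp only [Complex.ofReal_re]

end Pool.Agent.V1194.LP
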